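import Pool.Agent.helper3.SG.SpecN
import Pool.Agent.helper68.SG.SpecF

/-!
# Project sg: (MP_2b8aea_gt), Q1F: the final statement
-/

set_option autoImplicit false

open MeasureTheory Set Metric Filter Topology
open scoped ENNReal NNReal ComplexConjugate commutatorElement

namespace Pool.Agent.SG

/-- a group which is not solvable is not abelian. -/
theorem Q1F_nonAb (Γ : Type) [Group Γ] (h : ¬ Group.IsSolvable Γ) : NonAb Γ := by
  by_contra hc
  apply h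
  unfold NonAb at hc
  push Not at hc
  exact Group.isSolvable_of_comm fun x y => hc x y

/-- Q1F: the working form implies Q1. -/
theorem Q1F (hT01 : T01_stmt) (hMAIN2 : MAIN2_stmt) (h1 : F01_stmt) (h2 : F02_stmt)
    (h3 : F03_stmt) (h4 : F04_stmt) (h5 : F05_stmt) (h6 : F06_stmt) : Q1F_stmt := by
  intro g hg μ hμ
  obtain ⟨W, hWS, hWμ⟩ := h2 _ μ hμ
  obtain ⟨δ, hδ, H⟩ := hMAIN2 (SurfaceGroup g) (hT01 g (by omega)) (Q1F_nonAb _ (h6 g hg))
    (h5 g (by omega)) W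
  refine ⟨(δ : ℝ≥0∞), by exact_mod_cast hδ, ?_⟩
  intro ρ hρ ν hν
  obtain ⟨A, hA, hDF⟩ := h1 _ ρ
  obtain ⟨hd, -⟩ := hDF hρ
  obtain ⟨B, hB, hB0, hBd⟩ := H A hd _ (h3 _ μ ρ A W ν hA hWS hWμ hν)
  exact h4 ν B δ hB hB0 hBd

end Pool.Agent.SG
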