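import Pool.Agent.helper3.SG.SpecS

/-!
# Project sg: (MP_2b8aea_gt), S03: every element has a fixed point on the circle
-/

set_option autoImplicit false

open MeasureTheory Set Metric Filter Topology
open scoped ENNReal NNReal ComplexConjugate commutatorElement

namespace Pool.Agent.SG

/-- the denominator is bounded below. -/
theorem S03_den (a b z : ℂ) : ‖a‖ - ‖b‖ * ‖z‖ ≤ ‖conj b * z + conj a‖ := by
  have h1 : ‖conj a‖ ≤ ‖conj b * z + conj a‖ + ‖conj b * z‖ := by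
    calc ‖conj a‖ = ‖(conj b * z + conj a) - conj b * z‖ := by ring_nf
      _ ≤ _ := norm_sub_le _ _
  rw [norm_mul, Complex.norm_conj, Complex.norm_conj] at h1
  linarith

theorem S03_lt (a b : ℂ) (h : ‖a‖ ^ 2 - ‖b‖ ^ 2 = 1) : ‖b‖ < ‖a‖ := by
  nlinarith [norm_nonneg a, norm_nonneg b]

theorem S03_ne (a b z : ℂ) (h : ‖a‖ ^ 2 - ‖b‖ ^ 2 = 1) (hz : ‖z‖ ≤ 1) :
    conj b * z + conj a ≠ 0 := by
  intro h0
  have h1 := S03_den a b z
  rw [h0, norm_zero] at h1
  have h2 := S03_lt a b h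
  nlinarith [norm_nonneg b, norm_nonneg z]

/-- fixed points from the quadratic equation. -/
theorem S03_fix (a b z : ℂ) (h : ‖a‖ ^ 2 - ‖b‖ ^ 2 = 1) (hz : ‖z‖ ≤ 1)
    (e : conj b * z ^ 2 + (conj a - a) * z - b = 0) : mob a b z = z := by
  unfold mob
  rw [div_eq_iff (S03_ne a b z h hz)]
  linear_combination -e

/-- the equation after multiplication by `conj b`. -/
theorem S03_eq (a b z η : ℂ) (hb : b ≠ 0) (hη : conj b * z = η)
    (e : η ^ 2 + (conj a - a) * η - b * conj b = 0) :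
    conj b * z ^ 2 + (conj a - a) * z - b = 0 := by
  have hb' : conj b ≠ 0 := (map_ne_zero _).mpr hb
  refine mul_left_cancel₀ hb' ?_
  rw [mul_zero, ← e, ← hη]
  ring

theorem S03_conj (a : ℂ) : conj a - a = -(2 * Complex.I * (a.im : ℂ)) := by
  apply Complex.ext <;> simp
  ring

theorem S03_bb (a b : ℂ) (h : ‖a‖ ^ 2 - ‖b‖ ^ 2 = 1) :
    b * conj b = ((a.re ^ 2 + a.im ^ 2 - 1 : ℝ) : ℂ) := by
  rw [Complex.mul_conj, ← Complex.sq_norm]
  congr 1
  have h2 : ‖a‖ ^ 2 = a.re ^ 2 + a.im ^ 2 := by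
    rw [Complex.sq_norm, Complex.normSq_apply]
    ring
  linarith

theorem S03_nb (a b : ℂ) (h : ‖a‖ ^ 2 - ‖b‖ ^ 2 = 1) : ‖b‖ ^ 2 = a.re ^ 2 + a.im ^ 2 - 1 := by
  have h2 : ‖a‖ ^ 2 = a.re ^ 2 + a.im ^ 2 := by
    rw [Complex.sq_norm, Complex.normSq_apply]
    ring
  linarith

/-- hyperbolic, parabolic or trivial: fixed point on the circle. -/
theorem S03_circ (a b : ℂ) (h : ‖a‖ ^ 2 - ‖b‖ ^ 2 = 1) (hx : 1 ≤ a.re ^ 2) :
    ∃ ξ : ℂ, ‖ξ‖ = 1 ∧ mob a b ξ = ξ := by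
  by_cases hb : b = 0
  · subst hb
    refine ⟨1, norm_one, S03_fix a 0 1 h norm_one.le ?_⟩
    have h1 := S03_nb a 0 h
    rw [norm_zero] at h1
    have h2 : a.im = 0 := by nlinarith
    rw [S03_conj, h2]
    simp
  · set s : ℝ := Real.sqrt (a.re ^ 2 - 1) with hs
    have hs2 : s ^ 2 = a.re ^ 2 - 1 := Real.sq_sqrt (by linarith)
    have hb' : conj b ≠ 0 := (map_ne_zero _).mpr hb
    set η : ℂ := Complex.I * (a.im : ℂ) + (s : ℂ) with hη
    have hmul : conj b * (η / conj b) = η := mul_div_cancel₀ _ hb'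
    have hnη : ‖η‖ ^ 2 = ‖b‖ ^ 2 := by
      rw [S03_nb a b h, Complex.sq_norm, Complex.normSq_apply, hη]
      simp
      nlinarith
    have hn : ‖η / conj b‖ = 1 := by
      rw [norm_div, Complex.norm_conj]
      have h3 : ‖η‖ = ‖b‖ := by
        have := (sq_eq_sq₀ (norm_nonneg η) (norm_nonneg b)).mp hnη
        exact this
      rw [h3, div_self (norm_ne_zero_iff.mpr hb)]
    refine ⟨η / conj b, hn, S03_fix a b _ h hn.le (S03_eq a b _ η hb hmul ?_)⟩
    rw [S03_conj, S03_bb a b h, hη]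
    have hsC : (s : ℂ) ^ 2 = (a.re : ℂ) ^ 2 - 1 := by
      rw [← Complex.ofReal_pow, hs2]
      push_cast
      ring
    push_cast
    linear_combination hsC + (-(a.im : ℂ) ^ 2) * Complex.I_sq

/-- elliptic: fixed point in the disc. -/
theorem S03_disc (a b : ℂ) (h : ‖a‖ ^ 2 - ‖b‖ ^ 2 = 1) (hx : a.re ^ 2 < 1) :
    ∃ z : ℂ, ‖z‖ < 1 ∧ mob a b z = z := by
  by_cases hb : b = 0
  · subst hb
    refine ⟨0, by simp, S03_fix a 0 0 h (by simp) (by simp)⟩
  · have hb' : conj b ≠ 0 := (map_ne_zero _).mpr hb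
    have hbn := norm_pos_iff.mpr hb
    have hnb := S03_nb a b h
    set r : ℝ := Real.sqrt (1 - a.re ^ 2) with hr
    have hr2 : r ^ 2 = 1 - a.re ^ 2 := Real.sq_sqrt (by linarith)
    have hr0 : 0 < r := Real.sqrt_pos.mpr (by linarith)
    obtain ⟨t, ht1, ht2⟩ : ∃ t : ℝ, t * (2 * a.im - t) = ‖b‖ ^ 2 ∧ t ^ 2 < ‖b‖ ^ 2 := by
      by_cases hp : 0 ≤ a.im
      · refine ⟨a.im - r, by nlinarith, ?_⟩
        have h4 : r < a.im := by
          by_contra hc
          push Not at hc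
          nlinarith
        nlinarith
      · push Not at hp
        refine ⟨a.im + r, by nlinarith, ?_⟩
        have h4 : r < -a.im := by
          by_contra hc
          push Not at hc
          nlinarith
        nlinarith
    set η : ℂ := Complex.I * (t : ℂ) with hη
    have hmul : conj b * (η / conj b) = η := mul_div_cancel₀ _ hb'
    have hnη : ‖η‖ ^ 2 = t ^ 2 := by
      rw [hη, norm_mul, Complex.norm_I, one_mul, Complex.norm_real, Real.norm_eq_abs, sq_abs]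
    have hn : ‖η / conj b‖ < 1 := by
      rw [norm_div, Complex.norm_conj, div_lt_one hbn]
      rw [← hnη] at ht2
      exact lt_of_pow_lt_pow_left₀ 2 (norm_nonneg b) ht2
    refine ⟨η / conj b, hn, S03_fix a b _ h hn.le (S03_eq a b _ η hb hmul ?_)⟩
    rw [S03_conj, S03_bb a b h, hη]
    have ht1C : (t : ℂ) * (2 * (a.im : ℂ) - t) = (a.re : ℂ) ^ 2 + (a.im : ℂ) ^ 2 - 1 := by
      rw [hnb] at ht1
      exact_mod_cast ht1
    push_cast
    linear_combination ht1C + ((t : ℂ) ^ 2 - 2 * (a.im : ℂ) * t) * Complex.I_sq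

theorem S03_one_sub (a b z : ℂ) (h : ‖a‖ ^ 2 - ‖b‖ ^ 2 = 1) (hz : ‖z‖ ≤ 1) :
    1 - ‖mob a b z‖ ^ 2 = (1 - ‖z‖ ^ 2) / ‖conj b * z + conj a‖ ^ 2 := by
  have h0 := S03_ne a b z h hz
  have h1 : ‖conj b * z + conj a‖ ^ 2 ≠ 0 := pow_ne_zero _ (norm_ne_zero_iff.mpr h0)
  unfold mob
  rw [norm_div, div_pow, eq_div_iff h1, sub_mul, div_mul_cancel₀ _ h1, one_mul]
  have key : ‖conj b * z + conj a‖ ^ 2 - ‖a * z + b‖ ^ 2 =
      (‖a‖ ^ 2 - ‖b‖ ^ 2) * (1 - ‖z‖ ^ 2) := by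
    simp only [Complex.sq_norm, Complex.normSq_apply, Complex.add_re, Complex.add_im,
      Complex.mul_re, Complex.mul_im, Complex.conj_re, Complex.conj_im]
    ring
  rw [key, h, one_mul]

theorem S03 (hS01 : S01_stmt) (hS02 : S02_stmt) : S03_stmt := by
  intro Γ _ hTF A hD γ
  obtain ⟨-, ⟨ε, hε, ha1, hb1⟩, -⟩ := hS01 Γ A
  obtain ⟨-, hba, -, -, -, -, -, hdisc⟩ := hS02 Γ A
  have hone : ∀ z : ℂ, A.act 1 z = z := by
    intro z
    show mob (A.a 1) (A.b 1) z = z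
    rw [ha1, hb1]
    unfold mob
    rcases hε with rfl | rfl
    · simp
    · simp
  by_cases hx : 1 ≤ (A.a γ).re ^ 2
  · obtain ⟨ξ, hξ, hf⟩ := S03_circ (A.a γ) (A.b γ) (A.norm_eq γ) hx
    exact ⟨ξ, by simpa [circ] using hξ, hf⟩
  · push Not at hx
    obtain ⟨z, hz, hf⟩ := S03_disc (A.a γ) (A.b γ) (A.norm_eq γ) hx
    have hpow : ∀ n : ℕ, A.act (γ ^ n) z = z := by
      intro n
      induction n with
      | zero => rw [pow_zero]; exact hone z
      | succ n ih =>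
        have e := A.map_mul (γ ^ n) γ z hz.le
        have e2 : A.act (γ ^ (n + 1)) z = A.act (γ ^ n) (A.act γ z) := by
          rw [pow_succ]
          exact e
        have e3 : A.act γ z = z := hf
        rw [e2, e3, ih]
    have hbound : ∀ n : ℕ, ‖A.a (γ ^ n)‖ ≤ 1 / (1 - ‖z‖) := by
      intro n
      have h1 := S03_one_sub (A.a (γ ^ n)) (A.b (γ ^ n)) z (A.norm_eq _) hz.le
      have h2 : mob (A.a (γ ^ n)) (A.b (γ ^ n)) z = z := hpow n
      rw [h2] at h1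
      have h3 : 0 < 1 - ‖z‖ ^ 2 := by nlinarith [norm_nonneg z]
      have h0 := S03_ne (A.a (γ ^ n)) (A.b (γ ^ n)) z (A.norm_eq _) hz.le
      set q := ‖conj (A.b (γ ^ n)) * z + conj (A.a (γ ^ n))‖ with hq
      have hq0 : 0 < q := norm_pos_iff.mpr h0
      have h4 : q ^ 2 = 1 := by
        rw [eq_div_iff (pow_ne_zero _ hq0.ne')] at h1
        have : (1 - ‖z‖ ^ 2) * (q ^ 2 - 1) = 0 := by linarith
        rcases mul_eq_zero.mp this with h5 | h5
        · exact absurd h5 h3.ne'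
        · linarith
      have h5 : q = 1 := by nlinarith
      have h6 := S03_den (A.a (γ ^ n)) (A.b (γ ^ n)) z
      rw [← hq, h5] at h6
      have h7 := hba (γ ^ n)
      rw [le_div_iff₀ (by linarith)]
      nlinarith [norm_nonneg z]
    have hfin := hdisc.mp hD (1 / (1 - ‖z‖))
    have hfin2 : ((Submonoid.powers γ : Submonoid Γ) : Set Γ).Finite := by
      refine hfin.subset ?_
      rintro g ⟨n, rfl⟩
      exact hbound n
    have hord := finite_powers.mp hfin2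
    obtain ⟨n, hn, hn1⟩ := isOfFinOrder_iff_pow_eq_one.mp hord
    have hγ : γ = 1 := hTF γ n hn hn1
    refine ⟨1, by simp [circ], ?_⟩
    rw [hγ]
    exact hone 1

end Pool.Agent.SG
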